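import Pool.Agent.Helper15.UL.GoalsE

/-! Packet DICH of MP_57a173_lc, part E. -/

noncomputable section

namespace UL

namespace PkDICH

open Pool.Agent.Helper97.Ku NU MeasureTheory

theorem thm : UL.G_C1 → UL.G_CL4 → UL.G_DIAG → UL.G_DICH := by
  intro hC1 hCL4 hDIAG I _ _ hHF hHT hI ι B r b hb
  have : Nonempty I := by
    obtain ⟨β, -⟩ := hI.bdd Empty (fun k => k.elim) (by simp)
    exact ⟨β⟩
  by_cases h : ∃ α : I, b ⊓ ⨅ i, (B i ⇨ Inn α (r i)) ≠ ⊥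
  · obtain ⟨α, hα⟩ := h
    exact ⟨b ⊓ ⨅ i, (B i ⇨ Inn α (r i)), inf_le_left, hα,
      Or.inl (hC1 I hHF hI ι B r _ α fun i => inf_le_right.trans (iInf_le _ i))⟩
  · push Not at h
    obtain ⟨b', h1, h2, h3⟩ := hCL4 I hHF hHT hI ι B r b hb (fun α => by
      have h4 : b ≤ (⨅ i, (B i ⇨ Inn α (r i)))ᶜ :=
        le_compl_iff_disjoint_right.2 (disjoint_iff.2 (h α))
      refine h4.trans (le_of_eq ?_)
      rw [compl_iInf]
      refine iSup_congr fun i => ?_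
      rw [compl_himp, sdiff_eq])
    exact ⟨b', h1, h2, Or.inr (hDIAG I hHF ι B r b' h3)⟩

end PkDICH

end UL
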